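import Pool.Agent.Q116.Susp.Spider
import Pool.Agent.Q116.Susp.Host

set_option autoImplicit false

namespace Pool.Agent.Results.MP_6784b8_co.TwoSidedCliques

/-- The suspension of `T`: one new vertex `none`, joined to every vertex of `T`. -/
def suspension {W : Type} (T : SimpleGraph W) : SimpleGraph (Option W) where
  Adj a b := match a, b with
    | none, none => False
    | none, some _ => True
    | some _, none => True
    | some u, some v => T.Adj u v
  symm := ⟨fun a b h => by
    rcases a with _ | u <;> rcases b with _ | v <;> simp only at h ⊢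
    exact h.symm⟩
  loopless := ⟨fun a h => by
    rcases a with _ | u
    · exact h
    · exact T.loopless.irrefl u h⟩

/-- `f n k` is the maximum of `n₀ n₁ + ⌊(k-1) n₀ / 2⌋` over `n₀ + n₁ = n`. -/
def f (n k : ℕ) : ℕ :=
  (Finset.range (n + 1)).sup fun n₀ => n₀ * (n - n₀) + (k - 1) * n₀ / 2

/-- `X` is a colour class of a proper 2-colouring of `T`. -/
def IsColourClass {W : Type} (T : SimpleGraph W) (X : Finset W) : Prop :=
  ∀ u v, T.Adj u v → (u ∈ X ↔ v ∉ X)

open Q116.Susp

theorem host_free {W : Type} [Fintype W] (T : SimpleGraph W) (X : Finset W) (hX : 2 ≤ X.card)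
    (hdeg : ∀ x ∈ X, 2 * X.card - 1 ≤ (T.neighborSet x).ncard) (q r : ℕ) :
    (suspension T).Free (host q X.card r) := by
  rintro ⟨φ⟩
  have hadj : ∀ w : W, (host q X.card r).Adj (φ none) (φ (some w)) := fun w =>
    φ.toHom.map_adj (show (suspension T).Adj none (some w) from trivial)
  have hinj : Function.Injective (fun w : W => φ (some w)) := fun a b h => by
    have := φ.injective h
    simpa using this
  have h1 : ∃ x ∈ X, side (φ none) ≠ side (φ (some x)) := by
    by_contra hcon
    push Not at hcon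
    have h2 : (X : Set W).ncard ≤
        {v | (host q X.card r).Adj (φ none) v ∧ side (φ none) = side v}.ncard := by
      apply Set.ncard_le_ncard_of_injOn (fun w => φ (some w))
      · intro w hw
        exact ⟨hadj w, hcon w hw⟩
      · exact hinj.injOn
    have h3 := ownside (φ none)
    rw [Set.ncard_coe_finset] at h2
    omega
  obtain ⟨x, hx, hside⟩ := h1
  have h2 : (T.neighborSet x).ncard ≤ {w | (host q X.card r).Adj (φ none) w ∧
      (host q X.card r).Adj (φ (some x)) w}.ncard := by
    apply Set.ncard_le_ncard_of_injOn (fun w => φ (some w))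
    · intro w hw
      exact ⟨hadj w, φ.toHom.map_adj (show (suspension T).Adj (some x) (some w) from hw)⟩
    · exact hinj.injOn
  have h3 := common _ _ hside
  have h4 := hdeg x hx
  omega

theorem f_lt (k n : ℕ) (hk : 2 ≤ k) (hn : 16 * k ≤ n) (q r e : ℕ) (hr : r < 2 * k)
    (hqr : n = 2 * (q * k) + r)
    (he : 2 * e = 2 * (q * k) * (q * k + (k - 1)) + 2 * (q * k) * r) : f n k < e := by
  unfold f
  have hpos : 0 < e := by
    have : 0 < q * k := by omega
    nlinarith
  rw [Finset.sup_lt_iff hpos]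
  intro a ha
  have ha' : a ≤ n := by
    have := Finset.mem_range.1 ha
    omega
  obtain ⟨K, rfl⟩ : ∃ K, k = K + 1 := ⟨k - 1, by omega⟩
  obtain ⟨b, rfl⟩ : ∃ b, n = a + b := ⟨n - a, by omega⟩
  simp only [Nat.add_sub_cancel, Nat.add_sub_cancel_left] at he ⊢
  have h1 : 2 * (K * a / 2) ≤ K * a := Nat.mul_div_le _ _
  have h2 : 2 * (a * b) + K * a < 2 * e := by
    rw [he]
    zify at *
    set m : ℤ := q * (K + 1) with hm
    have hr0 : (0 : ℤ) ≤ r := by positivity
    have hK : (1 : ℤ) ≤ K := by linarith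
    have hb : (b : ℤ) = 2 * m + r - a := by linarith
    rw [hb]
    have hm2 : 16 * ((K : ℤ) + 1) ≤ 2 * m + r := by linarith
    have hr2 : (r : ℤ) ≤ 2 * K + 1 := by linarith
    nlinarith [sq_nonneg (4 * (a : ℤ) - 4 * m - 2 * r - K), mul_nonneg hr0 (sub_nonneg.2 hr2),
      mul_nonneg (sub_nonneg.2 hK) (sub_nonneg.2 hm2), mul_nonneg (sub_nonneg.2 hK) (sub_nonneg.2 hr2)]
  omega

theorem criterion {W : Type} [Fintype W] (T : SimpleGraph W) (X : Finset W) (hX : 2 ≤ X.card)
    (hdeg : ∀ x ∈ X, 2 * X.card - 1 ≤ (T.neighborSet x).ncard) (n : ℕ) (hn : 16 * X.card ≤ n) :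
    f n X.card < SimpleGraph.extremalNumber n (suspension T) := by
  classical
  set k := X.card with hk
  have hk0 : 0 < 2 * k := by omega
  have hqr : n = 2 * ((n / (2 * k)) * k) + n % (2 * k) := by
    have := Nat.div_add_mod n (2 * k)
    calc n = 2 * k * (n / (2 * k)) + n % (2 * k) := this.symm
      _ = _ := by ring
  have hlt := Nat.mod_lt n hk0
  set q := n / (2 * k)
  set r := n % (2 * k)
  have h1 := SimpleGraph.card_edgeFinset_le_extremalNumber (host_free T X hX hdeg q r)
  rw [host_verts, ← hk, ← hqr] at h1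
  refine lt_of_lt_of_le (f_lt k n hX hn q r _ hlt hqr (host_card (q := q) (k := k) (r := r))) ?_
  convert h1

theorem mem_centres {k m : ℕ} (v : W k m) :
    v ∈ (Finset.univ.image fun i : Fin k => (Sum.inr (Sum.inl i) : W k m)) ↔
      ∃ i, v = Sum.inr (Sum.inl i) := by
  simp [eq_comm]

theorem exists_trees (k m : ℕ) (hk : 2 ≤ k) (hm : 2 * k - 2 ≤ m) :
    ∃ (T : SimpleGraph (W k m)) (X : Finset (W k m)),
      T.IsTree ∧ IsColourClass T X ∧ X.card = k ∧ Xᶜ.card = 1 + k * m ∧
      ∀ x ∈ X, 2 * k - 1 ≤ (T.neighborSet x).ncard := by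
  have hX : (Finset.univ.image fun i : Fin k => (Sum.inr (Sum.inl i) : W k m)).card = k := by
    rw [Finset.card_image_of_injective _ (fun i j h => by simpa using h)]
    simp
  refine ⟨spider k m, Finset.univ.image fun i : Fin k => Sum.inr (Sum.inl i), spider_tree, ?_,
    hX, ?_, ?_⟩
  · intro u v h
    rw [mem_centres, mem_centres]
    simp only [spider] at h
    rcases u with (a | p | p) <;> rcases v with (b | p' | p') <;> simp only [wadj] at h <;>
    simp
  · rw [Finset.card_compl, hX]
    simp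
    omega
  · intro x hx
    obtain ⟨i, rfl⟩ := (mem_centres x).1 hx
    rw [spider_deg]
    omega

/-- **Main result.** -/
theorem result :
    (∀ (W : Type) [Fintype W] [DecidableEq W] (T : SimpleGraph W) (X : Finset W),
      T.IsTree → IsColourClass T X → 2 ≤ X.card → X.card ≤ Xᶜ.card →
      (∀ x ∈ X, 2 * X.card - 1 ≤ (T.neighborSet x).ncard) →
      ∀ n, 16 * X.card ≤ n → f n X.card < SimpleGraph.extremalNumber n (suspension T)) ∧
    (∀ k m : ℕ, 2 ≤ k → 2 * k - 2 ≤ m →
      ∃ (W : Type) (_ : Fintype W) (_ : DecidableEq W) (T : SimpleGraph W) (X : Finset W),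
        T.IsTree ∧ IsColourClass T X ∧ X.card = k ∧ Xᶜ.card = 1 + k * m ∧
        ∀ n, 16 * k ≤ n → f n k < SimpleGraph.extremalNumber n (suspension T)) := by
  refine ⟨fun W _ _ T X _ _ hX _ hdeg n hn => criterion T X hX hdeg n hn, fun k m hk hm => ?_⟩
  obtain ⟨T, X, h1, h2, h3, h4, h5⟩ := exists_trees k m hk hm
  refine ⟨W k m, inferInstance, inferInstance, T, X, h1, h2, h3, h4, fun n hn => ?_⟩
  have := criterion T X (by omega) (by rw [h3]; exact h5) n (by omega)
  rwa [h3] at this

end Pool.Agent.Results.MP_6784b8_co.TwoSidedCliques
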